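import Pool.Agent.helper70.LE.SpecN

/-!
# Project LE (MP_baa4d7_al), block NIL, row SEG: rigidity
-/

set_option autoImplicit false

namespace Pool.Agent.LE

open Pool.Agent.helper58.DC Pool.Agent.DI Pool.Agent.GR Pool.Agent.OB Pool.Agent.DR Pool.Agent.FI Pool.Agent.FI3 Pool.Agent.FI4

section
variable {G : Type} [Group G]

private theorem SEG_padic {p : ℕ} {n n₀ : ℕ} (hp : p.Prime) (hn : ¬ p ∣ n₀) {y y' : G}
    (hy : y ^ p ^ n = 1) (hy' : y' ^ p ^ n = 1) (h : y ^ n₀ = y' ^ n₀) : y = y' := by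
  have hc : Nat.Coprime n₀ (p ^ n) :=
    Nat.Coprime.symm (Nat.Coprime.pow_left n ((Nat.Prime.coprime_iff_not_dvd hp).mpr hn))
  have h1 : ∀ g : G, g ^ p ^ n = 1 → (g ^ n₀) ^ (n₀.gcdA (p ^ n)) = g := by
    intro g hg
    have h2 := Nat.gcd_eq_gcd_ab n₀ (p ^ n)
    rw [hc] at h2
    have h3 : g ^ ((n₀ : ℤ) * n₀.gcdA (p ^ n) + ((p ^ n : ℕ) : ℤ) * n₀.gcdB (p ^ n)) = g := by
      rw [← h2]
      simp
    rw [zpow_add, zpow_mul, zpow_mul, zpow_natCast, zpow_natCast, hg, one_zpow, mul_one] at h3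
    exact h3
  rw [← h1 y hy, h, h1 y' hy']

private theorem SEG_fix {p : ℕ} {n n₀ : ℕ} (hp : p.Prime) (hn : ¬ p ∣ n₀) {y y' z : G}
    (hy : y ^ p ^ n = 1) (hy' : y' ^ p ^ n = 1) (h : y ^ n₀ * z * (y' ^ n₀)⁻¹ = z) : y * z = z * y' := by
  have h4 : (z⁻¹ * y * z) ^ n₀ = y' ^ n₀ := by
    have h5 : (z⁻¹ * y * z) ^ n₀ = z⁻¹ * y ^ n₀ * z := by
      have := conj_pow (a := z⁻¹) (b := y) (i := n₀)
      rw [inv_inv] at this
      exact this
    rw [h5]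
    have h6 : y ^ n₀ * z = z * y' ^ n₀ := by
      calc y ^ n₀ * z = (y ^ n₀ * z * (y' ^ n₀)⁻¹) * y' ^ n₀ := by group
        _ = z * y' ^ n₀ := by rw [h]
    rw [mul_assoc, h6, inv_mul_cancel_left]
  have h7 : z⁻¹ * y * z = y' := by
    refine SEG_padic hp hn ?_ hy' h4
    have h5 : (z⁻¹ * y * z) ^ p ^ n = z⁻¹ * y ^ p ^ n * z := by
      have := conj_pow (a := z⁻¹) (b := y) (i := p ^ n)
      rw [inv_inv] at this
      exact this
    rw [h5, hy]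
    group
  rw [← h7]
  group

/-- `z ∈ y L` iff `s z ∈ y L`, for `s ∈ L` -/
private theorem SEG_mem {L : Subgroup G} {y : G} (hy : y ∈ nz L) {s z : G} (hz : y⁻¹ * z ∈ L) :
    y⁻¹ * (s * z) ∈ L ↔ s ∈ L := by
  rw [Subgroup.mem_normalizer_iff'] at hy
  have h1 : y⁻¹ * (s * z) = (y⁻¹ * s * y) * (y⁻¹ * z) := by group
  rw [h1, Subgroup.mul_mem_cancel_right L hz]
  have h2 := hy (y⁻¹ * s)
  have h3 : y * (y⁻¹ * s) = s := by group
  rw [h3] at h2
  exact h2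

private theorem SEG_quo {L : Subgroup G} {y : G} (hy : y ∈ nz L) {z w : G} (hz : y⁻¹ * z ∈ L)
    (hw : y⁻¹ * w ∈ L) : w * z⁻¹ ∈ L := by
  have h1 := SEG_mem (s := w * z⁻¹) hy hz
  have h2 : w * z⁻¹ * z = w := by group
  rw [h2] at h1
  exact h1.1 hw

private theorem SEG_inv {L : Subgroup G} {y : G} (hy : y ∈ nz L) {s w : G} (hw : y⁻¹ * w ∈ L) (hs : s ∈ L) :
    y⁻¹ * (s⁻¹ * w) ∈ L := (SEG_mem hy hw).2 (L.inv_mem hs)

end

theorem SEG (hRGM : RGM_stmt) (hZEA : ZEA_stmt) : SEG_stmt := by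
  intro p M hS G _ _ L e f u v u' v' y hpu hpu' hrv hrv' huv huv' he hf hex hfx hef hy hZ
  classical
  have : Fintype G := Fintype.ofFinite G
  obtain ⟨x, hx⟩ : ∃ x : G, x = u * v := ⟨_, rfl⟩
  obtain ⟨x', hx'⟩ : ∃ x' : G, x' = u' * v' := ⟨_, rfl⟩
  rw [← hx] at hex hfx hZ ⊢
  rw [← hx'] at hZ ⊢
  -- the type and the permutation
  let Z : Type := {z : G // y⁻¹ * z ∈ L}
  have : Fintype Z := Fintype.ofFinite Z
  let g : Z → Z := fun z => ⟨x * z.1 * x'⁻¹, hZ z.1 z.2⟩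
  have hg : Function.Injective g := by
    intro z w h
    have h1 : x * z.1 * x'⁻¹ = x * w.1 * x'⁻¹ := congrArg Subtype.val h
    exact Subtype.ext (mul_left_cancel (mul_right_cancel h1))
  let π : Equiv.Perm Z := Equiv.ofBijective g (Finite.injective_iff_bijective.1 hg)
  have hπ : ∀ z : Z, (π z).1 = x * z.1 * x'⁻¹ := fun z => rfl
  have hpow : ∀ (k : ℕ) (z : Z), ((π ^ k) z).1 = x ^ k * z.1 * (x' ^ k)⁻¹ := by
    intro k
    induction k with
    | zero => intro z; simp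
    | succ k ih =>
      intro z
      rw [pow_succ, Equiv.Perm.mul_apply, ih, hπ, pow_succ x, pow_succ' x', mul_inv_rev]
      have h : (x' ^ k)⁻¹ * x'⁻¹ = x'⁻¹ * (x' ^ k)⁻¹ := by
        rw [← mul_inv_rev, ← mul_inv_rev, ← pow_succ', ← pow_succ]
      rw [h]
      simp only [mul_assoc]
  -- orders
  obtain ⟨k, hk⟩ := hpu
  obtain ⟨k', hk'⟩ := hpu'
  set n : ℕ := max k k' with hn
  have hun : u ^ p ^ n = 1 := by
    obtain ⟨c, hc⟩ := Nat.pow_dvd_pow p (le_max_left k k')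
    rw [hn, hc, pow_mul, hk, one_pow]
  have hun' : u' ^ p ^ n = 1 := by
    obtain ⟨c, hc⟩ := Nat.pow_dvd_pow p (le_max_right k k')
    rw [hn, hc, pow_mul, hk', one_pow]
  set n₀ : ℕ := orderOf v * orderOf v' with hn₀
  have hpn : ¬ p ∣ n₀ := by
    intro h
    rcases (hS.pr.dvd_mul).mp h with h | h
    · exact hrv h
    · exact hrv' h
  have hvn : v ^ n₀ = 1 := by rw [hn₀, pow_mul, pow_orderOf_eq_one, one_pow]
  have hvn' : v' ^ n₀ = 1 := by rw [hn₀, mul_comm, pow_mul, pow_orderOf_eq_one, one_pow]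
  have han : x ^ n₀ = u ^ n₀ := by rw [hx, huv.mul_pow, hvn, mul_one]
  have hbn : x' ^ n₀ = u' ^ n₀ := by rw [hx', huv'.mul_pow, hvn', mul_one]
  have haN : x ^ (p ^ n * n₀) = 1 := by
    rw [mul_comm, pow_mul, han, ← pow_mul, mul_comm, pow_mul, hun, one_pow]
  have hbN : x' ^ (p ^ n * n₀) = 1 := by
    rw [mul_comm, pow_mul, hbn, ← pow_mul, mul_comm, pow_mul, hun', one_pow]
  have hfix : ∀ z : Z, (π ^ n₀) z = z → u * z.1 = z.1 * u' := by
    intro z hz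
    have h1 : x ^ n₀ * z.1 * (x' ^ n₀)⁻¹ = z.1 := by
      rw [← hpow, hz]
    rw [han, hbn] at h1
    exact SEG_fix hS.pr hpn hun hun' h1
  -- commutation
  have hux : u * x = x * u := by rw [hx, mul_assoc, huv.eq]
  have hux' : u' * x' = x' * u' := by rw [hx', mul_assoc, huv'.eq]
  have hcon : ∀ z : Z, u * (π z).1 = (π z).1 * u' ↔ u * z.1 = z.1 * u' := by
    intro z
    rw [hπ]
    have h1 : u * (x * z.1 * x'⁻¹) = x * (u * z.1) * x'⁻¹ := by
      calc u * (x * z.1 * x'⁻¹) = (u * x) * z.1 * x'⁻¹ := by group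
        _ = (x * u) * z.1 * x'⁻¹ := by rw [hux]
        _ = x * (u * z.1) * x'⁻¹ := by group
    have h2 : x * z.1 * x'⁻¹ * u' = x * (z.1 * u') * x'⁻¹ := by
      have h3 : x'⁻¹ * u' = u' * x'⁻¹ := by
        calc x'⁻¹ * u' = x'⁻¹ * (u' * x') * x'⁻¹ := by group
          _ = x'⁻¹ * (x' * u') * x'⁻¹ := by rw [hux']
          _ = u' * x'⁻¹ := by group
      calc x * z.1 * x'⁻¹ * u' = x * z.1 * (x'⁻¹ * u') := by group
        _ = x * z.1 * (u' * x'⁻¹) := by rw [h3]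
        _ = x * (z.1 * u') * x'⁻¹ := by group
    rw [h1, h2]
    exact ⟨fun h => mul_left_cancel (mul_right_cancel h), fun h => by rw [h]⟩
  have hquo : ∀ z w : Z, (π w).1 * (π z).1⁻¹ = x * (w.1 * z.1⁻¹) * x⁻¹ := by
    intro z w
    rw [hπ, hπ]
    group
  -- the matrices
  have key := hRGM p M hS Z (fun z w => e (w.1 * z.1⁻¹))
    (fun z w => if u * z.1 = z.1 * u' ∧ u * w.1 = w.1 * u' then f (w.1 * z.1⁻¹) else 0) π n n₀ hpn ?_
    (fun z w => he.int _) ?_ ?_ ?_ ?_ ?_ ?_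
  · have h9 := sub_eq_zero.1 (hZEA p M hS _ key)
    have e1 : ∑ z : Z, e ((π z).1 * z.1⁻¹) = ∑ᶠ z ∈ {z : G | y⁻¹ * z ∈ L}, e (x * z * x'⁻¹ * z⁻¹) := by
      rw [← finsum_set_coe_eq_finsum_mem]
      exact (finsum_eq_sum_of_fintype (α := Z) (fun z : Z => e (x * z.1 * x'⁻¹ * z.1⁻¹))).symm
    have e2 : ∑ z : Z, (if u * z.1 = z.1 * u' ∧ u * (π z).1 = (π z).1 * u' then f ((π z).1 * z.1⁻¹) else 0) =
        ∑ᶠ z ∈ {z : G | y⁻¹ * z ∈ L ∧ u * z = z * u'}, f (x * z * x'⁻¹ * z⁻¹) := by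
      have h1 : ∑ᶠ z ∈ {z : G | y⁻¹ * z ∈ L ∧ u * z = z * u'}, f (x * z * x'⁻¹ * z⁻¹) =
          ∑ᶠ z ∈ {z : G | y⁻¹ * z ∈ L}, if u * z = z * u' then f (x * z * x'⁻¹ * z⁻¹) else 0 := by
        refine finsum_congr fun z => ?_
        by_cases c1 : y⁻¹ * z ∈ L
        · by_cases c2 : u * z = z * u'
          · simp [c1, c2]
          · simp [c2]
        · simp [c1]
      rw [h1, ← finsum_set_coe_eq_finsum_mem]
      refine Eq.symm ((finsum_eq_sum_of_fintype (α := Z)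
        (fun z : Z => if u * z.1 = z.1 * u' then f (x * z.1 * x'⁻¹ * z.1⁻¹) else 0)).trans ?_)
      refine Finset.sum_congr rfl fun z _ => ?_
      by_cases c : u * z.1 = z.1 * u'
      · rw [if_pos c, if_pos ⟨c, (hcon z).2 c⟩, hπ]
      · rw [if_neg c, if_neg (fun h => c h.1)]
    rw [← e1, ← e2]
    exact h9
  · ext z
    rw [hpow, haN, hbN]
    simp
  · intro z w
    show IntAt M (if u * z.1 = z.1 * u' ∧ u * w.1 = w.1 * u' then f (w.1 * z.1⁻¹) else 0)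
    split_ifs
    · exact hf.int _
    · exact IntAt.zero hS
  · intro z w
    show ∑ t : Z, e (t.1 * z.1⁻¹) * e (w.1 * t.1⁻¹) = e (w.1 * z.1⁻¹)
    have h1 : e (w.1 * z.1⁻¹) = ∑ s : G, e s * e (s⁻¹ * (w.1 * z.1⁻¹)) := by
      have h2 := congrFun he.idem (w.1 * z.1⁻¹)
      unfold cv at h2
      rw [finsum_eq_sum_of_fintype] at h2
      exact h2.symm
    rw [h1]
    refine Finset.sum_of_injOn (fun t : Z => w.1 * t.1⁻¹) ?_ (fun _ _ => Finset.mem_coe.2 (Finset.mem_univ _)) ?_ ?_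
    · intro t _ t' _ h
      exact Subtype.ext (inv_injective (mul_left_cancel h))
    · intro s _ hs
      have hsL : s ∉ L := by
        intro h
        apply hs
        refine ⟨⟨s⁻¹ * w.1, SEG_inv hy w.2 h⟩, by simp, ?_⟩
        show w.1 * (s⁻¹ * w.1)⁻¹ = s
        group
      rw [he.sup s hsL, zero_mul]
    · intro t _
      show e (t.1 * z.1⁻¹) * e (w.1 * t.1⁻¹) = e (w.1 * t.1⁻¹) * e ((w.1 * t.1⁻¹)⁻¹ * (w.1 * z.1⁻¹))
      have h2 : (w.1 * t.1⁻¹)⁻¹ * (w.1 * z.1⁻¹) = t.1 * z.1⁻¹ := by group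
      rw [h2, mul_comm]
  · intro z w
    show ∑ t : Z, (if u * z.1 = z.1 * u' ∧ u * t.1 = t.1 * u' then f (t.1 * z.1⁻¹) else 0) *
      (if u * t.1 = t.1 * u' ∧ u * w.1 = w.1 * u' then f (w.1 * t.1⁻¹) else 0) =
      if u * z.1 = z.1 * u' ∧ u * w.1 = w.1 * u' then f (w.1 * z.1⁻¹) else 0
    by_cases c : u * z.1 = z.1 * u' ∧ u * w.1 = w.1 * u'
    · rw [if_pos c]
      have h1 : f (w.1 * z.1⁻¹) = ∑ s : G, f s * f (s⁻¹ * (w.1 * z.1⁻¹)) := by
        have h2 := congrFun hf.idem (w.1 * z.1⁻¹)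
        unfold cv at h2
        rw [finsum_eq_sum_of_fintype] at h2
        exact h2.symm
      rw [h1]
      refine Finset.sum_of_injOn (fun t : Z => w.1 * t.1⁻¹) ?_ (fun _ _ => Finset.mem_coe.2 (Finset.mem_univ _)) ?_ ?_
      · intro t _ t' _ h
        exact Subtype.ext (inv_injective (mul_left_cancel h))
      · intro s _ hs
        have hsL : s ∉ Cz L u := by
          intro h
          apply hs
          refine ⟨⟨s⁻¹ * w.1, SEG_inv hy w.2 (mem_Cz.1 h).1⟩, by simp, ?_⟩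
          show w.1 * (s⁻¹ * w.1)⁻¹ = s
          group
        rw [hf.sup s hsL, zero_mul]
      · intro t _
        show (if u * z.1 = z.1 * u' ∧ u * t.1 = t.1 * u' then f (t.1 * z.1⁻¹) else 0) *
          (if u * t.1 = t.1 * u' ∧ u * w.1 = w.1 * u' then f (w.1 * t.1⁻¹) else 0) =
          f (w.1 * t.1⁻¹) * f ((w.1 * t.1⁻¹)⁻¹ * (w.1 * z.1⁻¹))
        by_cases ct : u * t.1 = t.1 * u'
        · have h2 : (w.1 * t.1⁻¹)⁻¹ * (w.1 * z.1⁻¹) = t.1 * z.1⁻¹ := by group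
          rw [if_pos ⟨c.1, ct⟩, if_pos ⟨ct, c.2⟩, h2, mul_comm]
        · have h2 : w.1 * t.1⁻¹ ∉ Cz L u := by
            intro h
            have h3 := (mem_Cz.1 h).2
            apply ct
            have h4 : w.1 * (u' * t.1⁻¹) = w.1 * (t.1⁻¹ * u) := by
              calc w.1 * (u' * t.1⁻¹) = (w.1 * u') * t.1⁻¹ := by group
                _ = (u * w.1) * t.1⁻¹ := by rw [c.2]
                _ = u * (w.1 * t.1⁻¹) := by group
                _ = w.1 * t.1⁻¹ * u := h3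
                _ = w.1 * (t.1⁻¹ * u) := by group
            have h5 := mul_left_cancel h4
            calc u * t.1 = t.1 * (t.1⁻¹ * u) * t.1 := by group
              _ = t.1 * (u' * t.1⁻¹) * t.1 := by rw [h5]
              _ = t.1 * u' := by group
          rw [hf.sup _ h2, zero_mul, if_neg (fun h => ct h.2), zero_mul]
    · rw [if_neg c]
      refine Finset.sum_eq_zero fun t _ => ?_
      by_cases cz : u * z.1 = z.1 * u'
      · rw [if_neg (c := u * t.1 = t.1 * u' ∧ u * w.1 = w.1 * u') (fun h => c ⟨cz, h.2⟩), mul_zero]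
      · rw [if_neg (c := u * z.1 = z.1 * u' ∧ u * t.1 = t.1 * u') (fun h => cz h.1), zero_mul]
  · intro z w
    show e ((π w).1 * (π z).1⁻¹) = e (w.1 * z.1⁻¹)
    rw [hquo, hex]
  · intro z w
    show (if u * (π z).1 = (π z).1 * u' ∧ u * (π w).1 = (π w).1 * u' then f ((π w).1 * (π z).1⁻¹) else 0) =
      if u * z.1 = z.1 * u' ∧ u * w.1 = w.1 * u' then f (w.1 * z.1⁻¹) else 0
    by_cases c : u * z.1 = z.1 * u' ∧ u * w.1 = w.1 * u'
    · rw [if_pos c, if_pos ⟨(hcon z).2 c.1, (hcon w).2 c.2⟩, hquo, hfx]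
    · rw [if_neg c, if_neg (fun h => c ⟨(hcon z).1 h.1, (hcon w).1 h.2⟩)]
  · intro z w hz hw
    have cz := hfix z hz
    have cw := hfix w hw
    show InM M (e (w.1 * z.1⁻¹) - if u * z.1 = z.1 * u' ∧ u * w.1 = w.1 * u' then f (w.1 * z.1⁻¹) else 0)
    rw [if_pos ⟨cz, cw⟩]
    refine hef _ (mem_Cz.2 ⟨SEG_quo hy z.2 w.2, ?_⟩)
    have h3 : u' * z.1⁻¹ = z.1⁻¹ * u := by
      calc u' * z.1⁻¹ = z.1⁻¹ * (z.1 * u') * z.1⁻¹ := by group
        _ = z.1⁻¹ * (u * z.1) * z.1⁻¹ := by rw [cz]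
        _ = z.1⁻¹ * u := by group
    calc u * (w.1 * z.1⁻¹) = (u * w.1) * z.1⁻¹ := by group
      _ = (w.1 * u') * z.1⁻¹ := by rw [cw]
      _ = w.1 * (u' * z.1⁻¹) := by group
      _ = w.1 * (z.1⁻¹ * u) := by rw [h3]
      _ = w.1 * z.1⁻¹ * u := by group

end Pool.Agent.LE
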