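import Pool.Agent.helper83.LE.SpecB

/-!
# Project LE (MP_baa4d7_al), block BOUND-L, row PK1: the signs
-/

set_option autoImplicit false

namespace Pool.Agent.LE

open Pool.Agent.helper58.DC Pool.Agent.DI Pool.Agent.GR Pool.Agent.OB Pool.Agent.DR Pool.Agent.FI Pool.Agent.FI3 Pool.Agent.FI4 Pool.Agent.FI4C

/-- `|I| n(u)²` is the restriction to `R` of an integer combination of characters -/
theorem PK1_nu (hLCG : LCG_stmt) (hLCO : LCO_stmt) (p : ℕ) (M : Ideal (integralClosure ℤ ℂ)) (D : Type)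
    [CommGroup D] [Fintype D] (X : Type) [Fintype X] (R : Set D) (I : Subgroup (MulAut D)) (β d : X → D → ℂ) (n : D → ℤ)
    (h : PD p M R I β d n) : ∃ κ : D → ℂ, LGC κ ∧ ∀ u ∈ R, κ u = (Nat.card I : ℂ) * (n u : ℂ) ^ 2 := by
  classical
  obtain ⟨hconst, -, -, -, -, hmul, hconj, -, hsum⟩ := hLCG D
  have hc : ∀ χ, ∃ m : ℤ, ∑ u, β χ u = (Nat.card D : ℂ) * m := fun χ => by
    obtain ⟨m, hm⟩ := (hLCO p M D (β χ) h.set h.pg (h.lg χ)).1 1
    refine ⟨m, ?_⟩
    simpa only [lv_hone, mul_one] using hm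
  choose c hc using hc
  have hD : (Nat.card D : ℂ) ≠ 0 := Nat.cast_ne_zero.2 Nat.card_pos.ne'
  have : Fintype I := Fintype.ofFinite _
  refine ⟨fun u => ∑ χ, (c χ : ℂ) * (starRingEnd ℂ) (β χ u), ?_, fun u hu => ?_⟩
  · exact hsum X (fun χ u => (c χ : ℂ) * (starRingEnd ℂ) (β χ u)) fun χ =>
      hmul _ _ (hconst (c χ)) (hconj _ (h.lg χ))
  · have h1 : (Nat.card D : ℂ) * ∑ χ, (c χ : ℂ) * (starRingEnd ℂ) (β χ u)
        = ∑ a, ∑ χ, β χ a * (starRingEnd ℂ) (β χ u) := by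
      rw [Finset.sum_comm, Finset.mul_sum]
      refine Finset.sum_congr rfl fun χ _ => ?_
      rw [← Finset.sum_mul, hc χ]
      ring
    have hinj : Function.Injective (fun t : I => (t : MulAut D) u) := by
      intro t t' htt
      have h2 : ((t' : MulAut D)⁻¹ * (t : MulAut D)) u = u := by
        rw [MulAut.mul_apply]
        have h3 : (t : MulAut D) u = (t' : MulAut D) u := htt
        rw [h3, MulAut.inv_apply_self]
      have h4 := h.fr _ (I.mul_mem (I.inv_mem t'.2) t.2) u hu h2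
      exact Subtype.ext (inv_mul_eq_one.1 h4).symm
    have h2 : ∑ a, ∑ χ, β χ a * (starRingEnd ℂ) (β χ u)
        = ∑ t : I, ∑ χ, β χ ((t : MulAut D) u) * (starRingEnd ℂ) (β χ u) := by
      rw [← Finset.sum_image (s := Finset.univ) (g := fun t : I => (t : MulAut D) u)
        (f := fun a => ∑ χ, β χ a * (starRingEnd ℂ) (β χ u)) (fun t _ t' _ htt => hinj htt)]
      refine (Finset.sum_subset (Finset.subset_univ _) fun a _ ha => ?_).symm
      refine h.ort u hu a fun t ht hta => ha ?_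
      exact Finset.mem_image.2 ⟨⟨t, ht⟩, Finset.mem_univ _, hta⟩
    have h3 : ∀ t : I, ∑ χ, β χ ((t : MulAut D) u) * (starRingEnd ℂ) (β χ u)
        = (n u : ℂ) ^ 2 * (Nat.card D : ℂ) := fun t => by
      rw [← h.nrm u hu, Finset.mul_sum]
      refine Finset.sum_congr rfl fun χ _ => ?_
      rw [h.inv χ t t.2 u, h.nd χ u hu, map_mul]
      simp only [map_intCast]
      ring
    have h4 : (Nat.card D : ℂ) * ∑ χ, (c χ : ℂ) * (starRingEnd ℂ) (β χ u)
        = (Nat.card D : ℂ) * ((Nat.card I : ℂ) * (n u : ℂ) ^ 2) := by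
      rw [h1, h2, Finset.sum_congr rfl fun t _ => h3 t, Finset.sum_const, Finset.card_univ,
        nsmul_eq_mul, Nat.card_eq_fintype_card (α := I)]
      ring
    exact mul_left_cancel₀ hD h4

theorem PK1 (hLCG : LCG_stmt) (hLCO : LCO_stmt) : PK1_stmt := by
  intro p M D _ _ X _ R I β d n h
  classical
  obtain ⟨κ, hκ, hκ2⟩ := PK1_nu hLCG hLCO p M D X R I β d n h
  refine ⟨⟨κ, hκ, hκ2⟩, ?_⟩
  have hM := h.set
  have hp : Prime (p : ℤ) := Nat.prime_iff_prime_int.1 hM.pr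
  by_cases hR : ∃ u₀, u₀ ∈ R
  · obtain ⟨u₀, hu₀⟩ := hR
    have hdvd : ∀ u ∈ R, (p : ℤ) ∣ n u - n u₀ ∨ (p : ℤ) ∣ n u + n u₀ := by
      intro u hu
      have h1 := (hLCO p M D κ hM h.pg hκ).2.2
      have h2 := InM.sub hM (h1 u) (h1 u₀)
      have h3 : κ u - κ 1 - (κ u₀ - κ 1) = (((Nat.card I : ℤ) * ((n u - n u₀) * (n u + n u₀)) : ℤ) : ℂ) := by
        rw [hκ2 u hu, hκ2 u₀ hu₀]
        push_cast
        ring
      rw [h3, InM.intCast hM] at h2
      rcases hp.dvd_or_dvd h2 with h4 | h4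
      · exact absurd (Int.natCast_dvd_natCast.1 h4) h.cop
      · exact hp.dvd_or_dvd h4
    refine ⟨n u₀, fun u => if (p : ℤ) ∣ n u - n u₀ then 1 else -1, ?_, ?_, h.np u₀ hu₀, ?_⟩
    · intro u
      show (if (p : ℤ) ∣ n u - n u₀ then (1 : ℤ) else -1) = 1 ∨ (if (p : ℤ) ∣ n u - n u₀ then (1 : ℤ) else -1) = -1
      split_ifs
      · exact Or.inl rfl
      · exact Or.inr rfl
    · intro u hu
      show (p : ℤ) ∣ (if (p : ℤ) ∣ n u - n u₀ then (1 : ℤ) else -1) * n u - n u₀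
      split_ifs with h1
      · rw [one_mul]
        exact h1
      · rcases hdvd u hu with h2 | h2
        · exact absurd h2 h1
        · have h3 : -1 * n u - n u₀ = -(n u + n u₀) := by ring
          rw [h3]
          exact (dvd_neg).2 h2
    · intro u _ u' _ he
      show (if (p : ℤ) ∣ n u - n u₀ then (1 : ℤ) else -1) = (if (p : ℤ) ∣ n u' - n u₀ then (1 : ℤ) else -1)
      rw [he]
  · refine ⟨1, fun _ => 1, fun _ => Or.inl rfl, fun u hu => absurd ⟨u, hu⟩ hR, ?_, fun _ _ _ _ _ => rfl⟩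
    intro h1
    exact hp.not_isUnit (isUnit_of_dvd_one h1)

end Pool.Agent.LE
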